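import Pool.Agent.Lib.MP_9ed008_lc.Poly
import Pool.Agent.Lib.PolyTime.Bridge

/-!
# Tree GCC with state sets `{0}`, `{1}`, `{0,2}` is solvable in polynomial time
-/

namespace Pool.Agent.Results.MP_9ed008_lc.PolynomialTime

open Pool.Agent.Lib.MP_9ed008_lc

open Classical in
/-- The question whether a matrix with entries `{0}`, `{1}`, `{0,2}` has a solution tree
(Tree GCC with these state sets, constrained persistent phylogeny) is decided by a Turing machine
in polynomial time, in the sense of Mathlib. -/
theorem result : Nonempty (Turing.TM2ComputableInPolyTime Inst.encode Computability.encodeBool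
    (fun I : Inst => decide (HasSolution I.M))) := by
  refine Pool.Agent.Lib.PolyTime.tm2_core
    (Pool.Agent.Lib.PolyTime.InOK.list Bool Inst.encode Inst.encode
      (fun x : Sym => Pool.Agent.Lib.PolyTime.TEnc.enc x) (fun _ => rfl))
    poly_solveB (Pool.Agent.Lib.PolyTime.OutOK.bool Sym) (fun I => ?_)
  have h := solveB_encode I
  show [solveB I.encode] = [decide (HasSolution I.M)]
  by_cases hs : HasSolution I.M
  · rw [h.mpr hs, decide_eq_true hs]
  · rw [decide_eq_false hs]
    have : ¬ solveB I.encode = true := fun h' => hs (h.mp h')
    rw [Bool.not_eq_true] at this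
    rw [this]

end Pool.Agent.Results.MP_9ed008_lc.PolynomialTime
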